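import Pool.Agent.H57.SCG2.FGR

/-!
Project SCG2, module FGI: the family in characteristic three, the intersection condition.
-/

namespace Pool.SCG

open Matrix

namespace FG

variable {F : Type*} [Field F]

/-- every element of the group generated by elements with matrices has a matrix -/
theorem gis_closure {T : Set (MulAut (SL3 F))} (hT : ∀ y ∈ T, ∃ (s : Bool) (A : M3 F), GIs y s A)
    (x : MulAut (SL3 F)) (hx : x ∈ Subgroup.closure T) : ∃ (s : Bool) (A : M3 F), GIs x s A := by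
  induction hx using Subgroup.closure_induction with
  | mem x h => exact hT x h
  | one => exact ⟨false, 1, gis_one⟩
  | mul x y _ _ hx hy =>
    obtain ⟨s, A, hA⟩ := hx
    obtain ⟨s', B, hB⟩ := hy
    cases s' with
    | false => exact ⟨_, _, hA.mul_inner hB⟩
    | true =>
      exact ⟨_, _, hA.mul_outer hB (Matrix.mul_nonsing_inv A (isUnit_iff_ne_zero.2 hA.det_ne))⟩
  | inv x _ hx =>
    obtain ⟨s, A, P, rfl, hP⟩ := hx
    cases s with
    | false =>
      refine ⟨false, _, P⁻¹, rfl, ?_⟩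
      rw [hP]
      simp [diagAut_inv]
    | true =>
      refine ⟨true, _, gt P⁻¹, rfl, ?_⟩
      rw [hP]
      simp only [if_true]
      rw [_root_.mul_inv_rev, diagAut_inv, eq_comm, ← diagAut_graph]
      congr 1

/-- commuting outer elements -/
theorem comm_oo {α β : MulAut (SL3 F)} {A A' B : M3 F} {c l : F} (hα : GIs α true A)
    (hβ : GIs β true B) (hA : A.transpose = A) (hA' : A'.transpose = A') (hB : B.transpose = B)
    (h1 : A * A' = c • (1 : M3 F)) (hc : c ≠ 0) (h2 : B * A' * B = l • A) :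
    α * β = β * α := by
  have h3 := hα.mul_outer' hβ h1 hc
  rw [hA'] at h3
  have h4 := h3.mul_inner h3
  have h5 : A' * A = c • (1 : M3 F) := by
    have := congrArg Matrix.transpose h1
    rwa [Matrix.transpose_mul, hA, hA', Matrix.transpose_smul, Matrix.transpose_one] at this
  have e : A' * B * (A' * B) = (l * c) • (1 : M3 F) := by
    calc A' * B * (A' * B) = A' * (B * A' * B) := by simp only [mul_assoc]
      _ = _ := by rw [h2, Matrix.mul_smul, h5, smul_smul]
  rw [e] at h4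
  have h6 := h4.eq_one_iff.2 ⟨_, rfl⟩
  have h7 := eq_inv_of_mul_eq_one_left h6
  rw [_root_.mul_inv_rev, ← eq_inv_of_mul_eq_one_left (outer_invol hα hA),
    ← eq_inv_of_mul_eq_one_left (outer_invol hβ hB)] at h7
  exact h7

theorem Th_symm (g : F) : (Th g).transpose = Th g := by
  ext i j
  fin_cases i <;> fin_cases j <;> simp [Th]

/-- the inverse of `Th g` up to a scalar -/
def Ti (g : F) : M3 F := !![0, 0, g; 0, 1, 0; g, 0, 0]

theorem Ti_symm (g : F) : (Ti g).transpose = Ti g := by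
  ext i j
  fin_cases i <;> fin_cases j <;> simp [Ti]

theorem Th_Ti (g : F) : Th g * Ti g = g • (1 : M3 F) := by
  ext i j
  fin_cases i <;> fin_cases j <;> simp [Th, Ti, Matrix.mul_apply, Fin.sum_univ_three]

theorem MA_Ti (g u1 u2 u3 : F) : MA g u1 u2 u3 * Ti g * MA g u1 u2 u3 =
    (g * (2 * u1 * u3 + g * u2 ^ 2) ^ 2) • Th g := by
  ext i j
  fin_cases i <;> fin_cases j <;>
    simp only [MA, Ti, Th, Matrix.mul_apply, Fin.sum_univ_three, Matrix.smul_apply, smul_eq_mul,
      Matrix.of_apply, Matrix.cons_val', Matrix.cons_val_zero, Matrix.cons_val_one,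
      Matrix.cons_val_two, Matrix.empty_val', Matrix.cons_val_fin_one, Matrix.head_cons,
      Matrix.tail_cons, Matrix.head_fin_const, Fin.zero_eta, Fin.mk_one, Fin.reduceFinMk] <;>
    ring

theorem an_Th (l g : F) (hl : l ≠ 0) : (An l).transpose * Th g * An l = (1 : F) • Th g := by
  have h3 : l * l⁻¹ = 1 := mul_inv_cancel₀ hl
  ext i j
  fin_cases i <;> fin_cases j <;>
    simp [An, Th, Matrix.mul_apply, Fin.sum_univ_three, hl]

theorem Th_det (g : F) : (Th g).det = -g := by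
  simp [Th, Matrix.det_fin_three]

theorem an_an (l : F) : An l * An 1 = dg l 1 l⁻¹ := by
  ext i j
  fin_cases i <;> fin_cases j <;>
    simp [An, dg, Matrix.mul_apply, Fin.sum_univ_three]

theorem dg_an (l : F) : dg l 1 l⁻¹ * An 1 = An l := by
  ext i j
  fin_cases i <;> fin_cases j <;>
    simp [An, dg, Matrix.mul_apply, Fin.sum_univ_three]

theorem dg_pow {α : MulAut (SL3 F)} {l : F} (h : GIs α false (dg l 1 l⁻¹)) (k : ℕ) :
    GIs (α ^ k) false (dg (l ^ k) 1 (l ^ k)⁻¹) := by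
  induction k with
  | zero =>
    rw [pow_zero, pow_zero, inv_one, dg_one]
    exact gis_one
  | succ k ih =>
    have := ih.mul_inner h
    rw [dg_mul, one_mul, ← _root_.mul_inv] at this
    rw [pow_succ, pow_succ]
    exact this

/-- elements of the centraliser -/
theorem closure_comm {T : Set (MulAut (SL3 F))} {θ : MulAut (SL3 F)}
    (h : ∀ y ∈ T, θ * y = y * θ) (x : MulAut (SL3 F)) (hx : x ∈ Subgroup.closure T) :
    x * θ = θ * x := by
  induction hx using Subgroup.closure_induction with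
  | mem x hx => exact (h x hx).symm
  | one => rw [one_mul, mul_one]
  | mul x y _ _ hx hy => rw [mul_assoc, hy, ← mul_assoc, hx, mul_assoc]
  | inv x _ hx =>
    rw [inv_mul_eq_iff_eq_mul, ← mul_assoc, hx, mul_inv_cancel_right]

end FG

open FG

theorem fgi_thm (hCTH : CTHStmt) : FGIStmt := by
  intro F _ s h3 hs a b c d hG x hx1 hx2
  have hs0 := hs.s0
  have h2 : (2 : F) ≠ 0 := by
    intro h
    exact one_ne_zero (by linear_combination h3 - h : (1 : F) = 0)
  have hl : -(s ^ 2) ≠ 0 := neg_ne_zero.2 (pow_ne_zero _ hs0)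
  have hn : s - 1 ≠ 0 := by
    intro h
    apply hs.s1
    linear_combination (s + 1) * h
  have hN : s + 1 ≠ 0 := by
    intro h
    apply hs.s1
    linear_combination (s - 1) * h
  have hdl : s ^ 2 + (s ^ 2)⁻¹ ≠ 0 := by
    intro h
    apply hs.s4
    have h4 : s ^ 2 * (s ^ 2)⁻¹ = 1 := mul_inv_cancel₀ (pow_ne_zero _ hs0)
    linear_combination s ^ 2 * h - h4
  obtain ⟨dl, hdle⟩ : ∃ dl : F, dl = s ^ 2 + (s ^ 2)⁻¹ := ⟨_, rfl⟩
  obtain ⟨ha, hb, hc, hd⟩ := hG
  rw [← hdle] at ha hd hdl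
  have hg : -(dl * (s - 1) ^ 6) ≠ 0 := neg_ne_zero.2 (mul_ne_zero hdl (pow_ne_zero _ hn))
  have hg' : dl * (s + 1) ^ 6 ≠ 0 := mul_ne_zero hdl (pow_ne_zero _ hN)
  obtain ⟨θ, hθ⟩ := gis_exists true (Th (-(dl * (s - 1) ^ 6))) (by
    rw [Th_det]; exact neg_ne_zero.2 hg)
  obtain ⟨θ', hθ'⟩ := gis_exists true (Th (dl * (s + 1) ^ 6)) (by
    rw [Th_det]; exact neg_ne_zero.2 hg')
  have hgg : (-(dl * (s - 1) ^ 6)) ^ 2 ≠ (dl * (s + 1) ^ 6) ^ 2 := by
    intro h
    have h5 : dl ^ 2 * ((s + 1) ^ 4 - (s - 1) ^ 4) ^ 3 = 0 := by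
      linear_combination -h - dl ^ 2 * (s + 1) ^ 4 * (s - 1) ^ 4 *
        ((s + 1) ^ 4 - (s - 1) ^ 4) * h3
    have h6 := (mul_eq_zero.1 h5).resolve_left (pow_ne_zero _ hdl)
    have h7 := pow_eq_zero_iff (three_ne_zero) |>.1 h6
    have h8 : (2 * 2 * s) * (2 * (s ^ 2 + 1)) = 0 := by linear_combination h7
    rcases mul_eq_zero.1 h8 with h9 | h9
    · exact mul_ne_zero (mul_ne_zero h2 h2) hs0 h9
    · have h10 := (mul_eq_zero.1 h9).resolve_left h2
      apply hs.s2
      linear_combination h10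
  have hx3 : x * θ = θ * x := by
    refine closure_comm ?_ x hx1
    intro y hy
    rcases hy with rfl | rfl | rfl
    · exact comm_oo hθ ha (Th_symm _) (Ti_symm _) (MA_symm _ _ _ _) (Th_Ti _) hg (MA_Ti _ _ _ _)
    · exact comm_oi hθ hb (an_Th _ _ hl)
    · exact comm_oi hθ hc (an_Th _ _ one_ne_zero)
  have hx4 : x * θ' = θ' * x := by
    refine closure_comm ?_ x hx2
    intro y hy
    rcases hy with rfl | rfl | rfl
    · exact comm_oi hθ' hb (an_Th _ _ hl)
    · exact comm_oi hθ' hc (an_Th _ _ one_ne_zero)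
    · exact comm_oo hθ' hd (Th_symm _) (Ti_symm _) (MA_symm _ _ _ _) (Th_Ti _) hg'
        (MA_Ti _ _ _ _)
  obtain ⟨s', M, hM⟩ := gis_closure (T := {a, b, c}) (by
    intro y hy
    rcases hy with rfl | rfl | rfl
    · exact ⟨_, _, ha⟩
    · exact ⟨_, _, hb⟩
    · exact ⟨_, _, hc⟩) x hx1
  obtain ⟨l, hl0, hl1⟩ := hCTH F h2 x θ θ' s' M _ _ hg hg' hgg hθ hθ' hM hx3 hx4
  obtain ⟨k, hk⟩ := hs.gen l hl0
  have hbc : GIs (b * c) false (dg (-(s ^ 2)) 1 (-(s ^ 2))⁻¹) := by
    have := hb.mul_inner hc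
    rwa [an_an] at this
  have hbk := dg_pow hbc k
  rw [hk] at hbk
  have mb : b ∈ Subgroup.closure ({b, c} : Set (MulAut (SL3 F))) :=
    Subgroup.subset_closure (by simp)
  have mc : c ∈ Subgroup.closure ({b, c} : Set (MulAut (SL3 F))) :=
    Subgroup.subset_closure (by simp)
  rcases hl1 with h | h
  · have e : (b * c) ^ k = x := hbk.ext h 1 (by rw [one_smul])
    rw [← e]
    exact pow_mem (mul_mem mb mc) k
  · have h11 := hbk.mul_inner hc
    rw [dg_an] at h11
    have e : (b * c) ^ k * c = x := h11.ext h 1 (by rw [one_smul])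
    rw [← e]
    exact mul_mem (pow_mem (mul_mem mb mc) k) mc

end Pool.SCG
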