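import Pool.Agent.H57.SCG2.FGB

/-!
Project SCG2, module FGR: the family in characteristic three, relations.
-/

namespace Pool.SCG

open Matrix

namespace FG

variable {F : Type*} [Field F]

/-- `A1 * (rank one)` -/
theorem A1_R1 (d m v1 v2 v3 : F) : A1 d m * R1 v1 v2 v3 v1 v2 v3 =
    R1 (-(m ^ 2 * d) * v1 + -(m * d) * v2 + m ^ 2 * d ^ 2 * v3)
      (-(m * d) * v1 + (d + 1) * v2 + m * d * v3)
      (m ^ 2 * d ^ 2 * v1 + m * d * v2 + -(m ^ 2 * d) * v3) v1 v2 v3 := by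
  ext i j
  fin_cases i <;> fin_cases j <;>
    simp only [R1, A1, Matrix.mul_apply, Fin.sum_univ_three,
      Matrix.of_apply, Matrix.cons_val', Matrix.cons_val_zero, Matrix.cons_val_one,
      Matrix.cons_val_two, Matrix.empty_val', Matrix.cons_val_fin_one, Matrix.head_cons,
      Matrix.tail_cons, Matrix.head_fin_const, Fin.zero_eta, Fin.mk_one, Fin.reduceFinMk] <;>
    ring

theorem A0_symm (d m : F) : (A0 d m).transpose = A0 d m := by
  ext i j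
  fin_cases i <;> fin_cases j <;> simp [A0]

theorem A1_A0 (d m : F) (h3 : (3 : F) = 0) :
    A1 d m * A0 d m = (m ^ 2 * (d * (d - 1) ^ 2)) • (1 : M3 F) := by
  have h := congrArg Matrix.transpose (A0_A1 d m h3)
  rwa [Matrix.transpose_mul, A1_symm, A0_symm, Matrix.transpose_smul, Matrix.transpose_one] at h

/-- the product `a * d` has order two -/
theorem ad_invol (s t : F) (hst : s * t = 1) (h3 : (3 : F) = 0) {a d : MulAut (SL3 F)}
    (hn : s - 1 ≠ 0) (hd0 : s ^ 2 + t ^ 2 ≠ 0) (hd1 : s ^ 2 + t ^ 2 - 1 ≠ 0)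
    (ha : GIs a true (A0 (s ^ 2 + t ^ 2) ((s - 1) ^ 3)))
    (hd : GIs d true (D0 (s ^ 2 + t ^ 2) ((s + 1) ^ 3) s)) : (a * d) * (a * d) = 1 := by
  have hk : ((s - 1) ^ 3) ^ 2 * ((s ^ 2 + t ^ 2) * (s ^ 2 + t ^ 2 - 1) ^ 2) ≠ 0 :=
    mul_ne_zero (pow_ne_zero _ (pow_ne_zero _ hn)) (mul_ne_zero hd0 (pow_ne_zero _ hd1))
  have h1 := ha.mul_outer' hd (A0_A1 _ _ h3) hk
  rw [A1_symm] at h1
  have h2 := h1.smul (pow_ne_zero 2 hn)
  rw [← Matrix.mul_smul, key s t hst h3, Matrix.mul_add, Matrix.mul_smul, A1_A0 _ _ h3,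
    A1_R1, smul_smul] at h2
  have h4 := h2.mul_inner h2
  rw [sq_R1 _ _ _ _ _ _ _ (key2 s t hst h3)] at h4
  exact h4.eq_one_iff.2 ⟨_, rfl⟩

end FG

open FG

theorem fgr_thm : FGRStmt := by
  intro F _ s h3 hs
  have hs0 := hs.s0
  obtain ⟨t, ht⟩ : ∃ t : F, t = s⁻¹ := ⟨_, rfl⟩
  have hst : s * t = 1 := by rw [ht, mul_inv_cancel₀ hs0]
  have ht0 : t ≠ 0 := by rw [ht]; exact inv_ne_zero hs0
  have e2 : (s ^ 2)⁻¹ = t ^ 2 := by rw [ht, inv_pow]
  have h2 : (2 : F) = -1 := by linear_combination h3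
  have hn : s - 1 ≠ 0 := by
    intro h
    apply hs.s1
    linear_combination (s + 1) * h
  have hN : s + 1 ≠ 0 := by
    intro h
    apply hs.s1
    linear_combination (s - 1) * h
  have hd0 : s ^ 2 + t ^ 2 ≠ 0 := by
    intro h
    apply hs.s4
    linear_combination s ^ 2 * h - (s * t + 1) * hst
  have hd1 : s ^ 2 + t ^ 2 - 1 ≠ 0 := by
    intro h
    have h5 : (s ^ 2 + 1) ^ 2 = 0 := by
      linear_combination s ^ 2 * h - (s * t + 1) * hst + s ^ 2 * h3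
    have h6 := pow_eq_zero_iff (two_ne_zero) |>.1 h5
    apply hs.s2
    linear_combination h6
  have hda : (A0 (s ^ 2 + t ^ 2) ((s - 1) ^ 3)).det ≠ 0 := by
    intro h0
    have h7 := congrArg Matrix.det (A0_A1 (s ^ 2 + t ^ 2) ((s - 1) ^ 3) h3)
    rw [Matrix.det_mul, h0, zero_mul, Matrix.det_smul, Matrix.det_one, mul_one] at h7
    exact pow_ne_zero _ (mul_ne_zero (pow_ne_zero _ (pow_ne_zero _ hn))
      (mul_ne_zero hd0 (pow_ne_zero _ hd1))) h7.symm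
  have hma := ma_a s t h3
  obtain ⟨a, hA⟩ := gis_exists true (A0 (s ^ 2 + t ^ 2) ((s - 1) ^ 3)) hda
  have ha : GIs a true (MA (-((s ^ 2 + (s ^ 2)⁻¹) * (s - 1) ^ 6)) ((s - 1) ^ 3) 1
      (-(s - 1) ^ 3)) := by
    rw [e2, hma]
    exact hA.smul (pow_ne_zero _ hn)
  have hdd : (D0 (s ^ 2 + t ^ 2) ((s + 1) ^ 3) s).det ≠ 0 := by
    have h8 : (D0 (s ^ 2 + t ^ 2) ((s + 1) ^ 3) s).det =
        ((s + 1) ^ 3) ^ 2 * ((s ^ 2 + t ^ 2) * (s ^ 2 + t ^ 2 - 1) ^ 3) * s ^ 6 := by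
      rw [Matrix.det_fin_three]
      simp only [D0, Matrix.of_apply, Matrix.cons_val', Matrix.cons_val_zero,
        Matrix.cons_val_one, Matrix.cons_val_two, Matrix.empty_val', Matrix.cons_val_fin_one,
        Matrix.head_cons, Matrix.tail_cons, Matrix.head_fin_const]
      linear_combination (2 * ((s + 1) ^ 3) ^ 2 * s ^ 6 * ((s ^ 2 + t ^ 2) ^ 3 -
        (s ^ 2 + t ^ 2) ^ 2)) * h3
    rw [h8]
    exact mul_ne_zero (mul_ne_zero (pow_ne_zero _ (pow_ne_zero _ hN))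
      (mul_ne_zero hd0 (pow_ne_zero _ hd1))) (pow_ne_zero _ hs0)
  obtain ⟨d, hD⟩ := gis_exists true (D0 (s ^ 2 + t ^ 2) ((s + 1) ^ 3) s) hdd
  have hd : GIs d true (MA ((s ^ 2 + (s ^ 2)⁻¹) * (s + 1) ^ 6) (s * (s + 1) ^ 3) (-1)
      ((s + 1) ^ 3 * s⁻¹)) := by
    rw [e2, ← ht]
    have h9 := ma_d s t hst h3
    have h10 : MA ((s ^ 2 + t ^ 2) * (s + 1) ^ 6) (s * (s + 1) ^ 3) (-1) ((s + 1) ^ 3 * t) =
        (t ^ 2 * (-(s + 1) ^ 6)) • D0 (s ^ 2 + t ^ 2) ((s + 1) ^ 3) s := by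
      rw [mul_smul, ← h9, smul_smul]
      have : t ^ 2 * s ^ 2 = 1 := by linear_combination (s * t + 1) * hst
      rw [this, one_smul]
    rw [h10]
    exact hD.smul (mul_ne_zero (pow_ne_zero _ ht0) (neg_ne_zero.2 (pow_ne_zero _ hN)))
  have hl : -(s ^ 2) ≠ 0 := neg_ne_zero.2 (pow_ne_zero _ hs0)
  have hdet : ∀ l : F, l ≠ 0 → (An l).det ≠ 0 := by
    intro l hl h0
    have h7 := congrArg Matrix.det (an_sq hl)
    rw [Matrix.det_mul, h0, zero_mul, Matrix.det_one] at h7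
    exact zero_ne_one h7
  obtain ⟨b, hb⟩ := gis_exists false (An (-(s ^ 2))) (hdet _ hl)
  obtain ⟨c, hc⟩ := gis_exists false (An (1 : F)) (hdet _ one_ne_zero)
  have iaa : a * a = 1 := outer_invol ha (MA_symm _ _ _ _)
  have idd : d * d = 1 := outer_invol hd (MA_symm _ _ _ _)
  refine ⟨a, b, c, d, ⟨ha, hb, hc, hd⟩, outer_ne_one ha, an_ne_one hl hb,
    an_ne_one one_ne_zero hc, outer_ne_one hd, iaa,
    inner_invol hb (an_sq hl), inner_invol hc (an_sq one_ne_zero), idd, ?_, ?_, ?_,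
    outer_ne_inner ha hb, ?_, (outer_ne_inner hd hc).symm⟩
  · apply comm_oi ha hc (l := 1)
    exact an_comm 1 one_ne_zero _ _ _ _ (by ring) (by ring)
  · have h11 := ad_invol s t hst h3 hn hd0 hd1 hA hD
    have h14 := eq_inv_of_mul_eq_one_left h11
    rw [_root_.mul_inv_rev, ← eq_inv_of_mul_eq_one_left iaa, ← eq_inv_of_mul_eq_one_left idd] at h14
    exact h14
  · symm
    apply comm_oi hd hb (l := 1)
    apply an_comm _ hl
    · rw [← ht]
      linear_combination (-(s ^ 2) * (s + 1) ^ 6 * (s * t + 1)) * hst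
    · rw [← ht]
      linear_combination (s * (s + 1) ^ 3) * hst
  · rintro rfl
    obtain ⟨_, k, _, hk⟩ := hb.uniq hc
    have h12 := congrFun (congrFun hk 1) 1
    have h13 := congrFun (congrFun hk 0) 2
    simp [An] at h12 h13
    apply hs.s2
    linear_combination h13 + s ^ 2 * h12

end Pool.SCG
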