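import Pool.Agent.H24.SCG2.Stmts4
import Pool.Agent.H24.SCG2.Base3

/-!
Project SCG2, module FGR: relations of the family in characteristic three.
-/

namespace Pool.SCG

open Matrix

namespace FG

variable {F : Type*} [Field F]

theorem an_sq {l : F} (hl : l ≠ 0) : An l * An l = 1 := by
  ext i j
  fin_cases i <;> fin_cases j <;>
    simp [An, Matrix.mul_apply, Fin.sum_univ_three, hl]

theorem MA_symm (g u1 u2 u3 : F) : (MA g u1 u2 u3).transpose = MA g u1 u2 u3 := by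
  ext i j
  fin_cases i <;> fin_cases j <;> simp [MA]

theorem outer_invol {α : MulAut (SL3 F)} {S : M3 F} (h : GIs α true S)
    (hs : S.transpose = S) : α * α = 1 := by
  have hu : IsUnit S.det := isUnit_iff_ne_zero.2 h.det_ne
  have h1 := h.mul_outer h (Matrix.mul_nonsing_inv S hu)
  have e : (S⁻¹).transpose * S = 1 := by
    rw [Matrix.transpose_nonsing_inv, hs, Matrix.nonsing_inv_mul S hu]
  rw [e] at h1
  exact h1.ext gis_one 1 (by rw [one_smul])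

theorem inner_invol {α : MulAut (SL3 F)} {S : M3 F} (h : GIs α false S)
    (hs : S * S = 1) : α * α = 1 := by
  have h1 := h.mul_inner h
  rw [hs] at h1
  exact h1.ext gis_one 1 (by rw [one_smul])

theorem comm_oi {α β : MulAut (SL3 F)} {A C : M3 F} {l : F} (hα : GIs α true A)
    (hβ : GIs β false C) (h : C.transpose * A * C = l • A) : α * β = β * α := by
  have hu : IsUnit C.det := isUnit_iff_ne_zero.2 hβ.det_ne
  have hut : IsUnit (C.transpose).det := by rw [Matrix.det_transpose]; exact hu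
  have h1 := hα.mul_inner hβ
  have h2 := hβ.mul_outer hα (Matrix.mul_nonsing_inv C hu)
  have e : A * C = l • ((C⁻¹).transpose * A) := by
    calc A * C = (C.transpose)⁻¹ * C.transpose * (A * C) := by
          rw [Matrix.nonsing_inv_mul _ hut, one_mul]
      _ = (C.transpose)⁻¹ * (C.transpose * A * C) := by simp only [mul_assoc]
      _ = _ := by rw [h, Matrix.mul_smul, Matrix.transpose_nonsing_inv]
  exact (h2.ext h1 l e).symm

theorem outer_ne_one {α : MulAut (SL3 F)} {S : M3 F} (h : GIs α true S) : α ≠ 1 := by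
  rintro rfl
  have := (gis_one.uniq h).1
  exact Bool.noConfusion this

theorem an_ne_one {α : MulAut (SL3 F)} {l : F} (hl : l ≠ 0) (h : GIs α false (An l)) :
    α ≠ 1 := by
  intro h1
  obtain ⟨c, hc⟩ := h.eq_one_iff.1 h1
  have := congrFun (congrFun hc 0) 2
  simp [An] at this
  exact hl this

theorem outer_ne_inner {α β : MulAut (SL3 F)} {S T : M3 F} (h : GIs α true S)
    (h' : GIs β false T) : α ≠ β := by
  rintro rfl
  have := (h.uniq h').1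
  exact Bool.noConfusion this

theorem an_comm (l : F) (hl : l ≠ 0) (g u1 u2 u3 : F) (h1 : u1 ^ 2 = l ^ 2 * u3 ^ 2)
    (h2 : u1 * u2 = -(l * (u2 * u3))) : (An l).transpose * MA g u1 u2 u3 * An l =
      (1 : F) • MA g u1 u2 u3 := by
  have h3 : l * l⁻¹ = 1 := mul_inv_cancel₀ hl
  have e1 : u1 ^ 2 * l⁻¹ ^ 2 = u3 ^ 2 := by
    linear_combination l⁻¹ ^ 2 * h1 + (l * l⁻¹ + 1) * u3 ^ 2 * h3
  have e2 : l⁻¹ * (u1 * u2) = -(u2 * u3) := by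
    linear_combination l⁻¹ * h2 - u2 * u3 * h3
  rw [one_smul]
  ext i j
  fin_cases i <;> fin_cases j <;>
    simp only [An, MA, Matrix.mul_apply, Fin.sum_univ_three, Matrix.transpose_apply,
      Matrix.of_apply, Matrix.cons_val', Matrix.cons_val_zero, Matrix.cons_val_one,
      Matrix.cons_val_two, Matrix.empty_val', Matrix.cons_val_fin_one, Matrix.head_cons,
      Matrix.tail_cons, Matrix.head_fin_const, Fin.zero_eta, Fin.mk_one, Fin.reduceFinMk]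
  · linear_combination 2 * e1
  · linear_combination (-2) * g * e2
  · linear_combination (-g * u2 ^ 2) * h3
  · linear_combination (-2) * g * e2
  · ring
  · linear_combination (-2) * g * h2
  · linear_combination (-g * u2 ^ 2) * h3
  · linear_combination (-2) * g * h2
  · linear_combination (-2) * h1

/-- the matrix of `a`, normalised -/
def A0 (d m : F) : M3 F :=
  !![-1, -(d * m), d; -(d * m), m ^ 2 * (d * (d + 1)), d * m; d, d * m, -1]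

/-- the inverse of `A0`, up to a scalar -/
def A1 (d m : F) : M3 F :=
  !![-(m ^ 2 * d), -(m * d), m ^ 2 * d ^ 2; -(m * d), d + 1, m * d;
    m ^ 2 * d ^ 2, m * d, -(m ^ 2 * d)]

/-- the matrix of `d`, normalised -/
def D0 (d M s : F) : M3 F :=
  !![1, -(d * M * s), d * s ^ 2; -(d * M * s), -(M ^ 2 * (d * (d + 1)) * s ^ 2), -(d * M * s ^ 3);
    d * s ^ 2, -(d * M * s ^ 3), s ^ 4]

/-- rank one matrices -/
def R1 (w1 w2 w3 v1 v2 v3 : F) : M3 F :=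
  !![w1 * v1, w1 * v2, w1 * v3; w2 * v1, w2 * v2, w2 * v3; w3 * v1, w3 * v2, w3 * v3]

theorem A0_A1 (d m : F) (h3 : (3 : F) = 0) :
    A0 d m * A1 d m = (m ^ 2 * (d * (d - 1) ^ 2)) • (1 : M3 F) := by
  ext i j
  fin_cases i <;> fin_cases j <;>
    simp only [A0, A1, Matrix.mul_apply, Fin.sum_univ_three, Matrix.smul_apply, smul_eq_mul,
      Matrix.of_apply, Matrix.cons_val', Matrix.cons_val_zero, Matrix.cons_val_one,
      Matrix.cons_val_two, Matrix.empty_val', Matrix.cons_val_fin_one, Matrix.head_cons,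
      Matrix.tail_cons, Matrix.head_fin_const, Fin.zero_eta, Fin.mk_one, Fin.reduceFinMk,
      Matrix.one_apply, Fin.reduceEq, if_true, if_false, Fin.isValue]
  · linear_combination (m ^ 2 * d ^ 2) * h3
  · ring
  · linear_combination (-(m ^ 2 * d ^ 2)) * h3
  · ring
  · linear_combination (2 * m ^ 2 * d ^ 2) * h3
  · ring
  · linear_combination (-(m ^ 2 * d ^ 2)) * h3
  · ring
  · linear_combination (m ^ 2 * d ^ 2) * h3

theorem A1_symm (d m : F) : (A1 d m).transpose = A1 d m := by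
  ext i j
  fin_cases i <;> fin_cases j <;> simp [A1]

/-- the square of a scalar plus a rank one matrix -/
theorem sq_R1 (c w1 w2 w3 v1 v2 v3 : F) (h : v1 * w1 + v2 * w2 + v3 * w3 = -(2 * c)) :
    (c • (1 : M3 F) + R1 w1 w2 w3 v1 v2 v3) * (c • (1 : M3 F) + R1 w1 w2 w3 v1 v2 v3) =
      c ^ 2 • (1 : M3 F) := by
  ext i j
  fin_cases i <;> fin_cases j <;>
    simp [R1, Matrix.mul_apply, Fin.sum_univ_three, Matrix.one_apply]
  · linear_combination (w1 * v1) * h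
  · linear_combination (w1 * v2) * h
  · linear_combination (w1 * v3) * h
  · linear_combination (w2 * v1) * h
  · linear_combination (w2 * v2) * h
  · linear_combination (w2 * v3) * h
  · linear_combination (w3 * v1) * h
  · linear_combination (w3 * v2) * h
  · linear_combination (w3 * v3) * h

theorem key (s t : F) (hst : s * t = 1) (h3 : (3 : F) = 0) :
    (s - 1) ^ 2 • D0 (s ^ 2 + t ^ 2) ((s + 1) ^ 3) s =
      (s ^ 2 * (s + 1) ^ 2) • A0 (s ^ 2 + t ^ 2) ((s - 1) ^ 3) +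
        R1 (s ^ 2 + s - 1) ((s - 1) ^ 2 * (s + 1) ^ 2 * (s ^ 2 + t ^ 2) * s)
          (-(s * (s ^ 2 - s - 1))) (s ^ 2 + s - 1)
          ((s - 1) ^ 2 * (s + 1) ^ 2 * (s ^ 2 + t ^ 2) * s) (-(s * (s ^ 2 - s - 1))) := by
  ext i j
  fin_cases i <;> fin_cases j <;>
    simp only [A0, D0, R1, Matrix.add_apply, Matrix.smul_apply, smul_eq_mul,
      Matrix.of_apply, Matrix.cons_val', Matrix.cons_val_zero, Matrix.cons_val_one,
      Matrix.cons_val_two, Matrix.empty_val', Matrix.cons_val_fin_one, Matrix.head_cons,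
      Matrix.tail_cons, Matrix.head_fin_const, Fin.zero_eta, Fin.mk_one, Fin.reduceFinMk]
  · linear_combination (s ^ 2) * h3
  · linear_combination (-3 * s ^ 5 * t - 3 * s ^ 4 + 6 * s ^ 3 * t + 6 * s ^ 2 - 3 * s * t - 3) * hst + (-1 * s ^ 8 + 2 * s ^ 6 - 2 * s ^ 4 + 2 * s ^ 2 - 1) * h3
  · linear_combination (-4 * s ^ 2 * t - 4 * s) * hst + (-1 * s ^ 5 - 1 * s ^ 3 - 1 * s) * h3
  · linear_combination (-3 * s ^ 5 * t - 3 * s ^ 4 + 6 * s ^ 3 * t + 6 * s ^ 2 - 3 * s * t - 3) * hst + (-1 * s ^ 8 + 2 * s ^ 6 - 2 * s ^ 4 + 2 * s ^ 2 - 1) * h3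
  · linear_combination (-6 * s ^ 11 * t - 6 * s ^ 10 - 3 * s ^ 9 * t ^ 3 - 10 * s ^ 9 * t - 3 * s ^ 8 * t ^ 2 - 10 * s ^ 8 - 4 * s ^ 7 * t ^ 3 + 17 * s ^ 7 * t - 4 * s ^ 6 * t ^ 2 + 17 * s ^ 6 + 14 * s ^ 5 * t ^ 3 + 8 * s ^ 5 * t + 14 * s ^ 4 * t ^ 2 + 8 * s ^ 4 - 4 * s ^ 3 * t ^ 3 - 4 * s ^ 2 * t ^ 2 - 3 * s * t ^ 3 - 6 * s * t - 3 * t ^ 2 - 6) * hst + (-1 * s ^ 14 - 2 * s ^ 12 + 2 * s ^ 8 + 2 * s ^ 6 + 2 * s ^ 4 - 1 * t ^ 2 - 2) * h3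
  · linear_combination (-3 * s ^ 6 * t - 3 * s ^ 5 + 6 * s ^ 4 * t + 6 * s ^ 3 - 3 * s ^ 2 * t - 3 * s) * hst + (-1 * s ^ 9 + 2 * s ^ 7 - 2 * s ^ 5 + 2 * s ^ 3 - 1 * s) * h3
  · linear_combination (-4 * s ^ 2 * t - 4 * s) * hst + (-1 * s ^ 5 - 1 * s ^ 3 - 1 * s) * h3
  · linear_combination (-3 * s ^ 6 * t - 3 * s ^ 5 + 6 * s ^ 4 * t + 6 * s ^ 3 - 3 * s ^ 2 * t - 3 * s) * hst + (-1 * s ^ 9 + 2 * s ^ 7 - 2 * s ^ 5 + 2 * s ^ 3 - 1 * s) * h3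
  · linear_combination (s ^ 4) * h3

theorem key2 (s t : F) (hst : s * t = 1) (h3 : (3 : F) = 0) :
    let d := s ^ 2 + t ^ 2
    let m := (s - 1) ^ 3
    let v1 := s ^ 2 + s - 1
    let v2 := (s - 1) ^ 2 * (s + 1) ^ 2 * (s ^ 2 + t ^ 2) * s
    let v3 := -(s * (s ^ 2 - s - 1))
    v1 * (-(m ^ 2 * d) * v1 + -(m * d) * v2 + m ^ 2 * d ^ 2 * v3) +
      v2 * (-(m * d) * v1 + (d + 1) * v2 + m * d * v3) +
      v3 * (m ^ 2 * d ^ 2 * v1 + m * d * v2 + -(m ^ 2 * d) * v3) =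
      -(2 * (s ^ 2 * (s + 1) ^ 2 * (m ^ 2 * (d * (d - 1) ^ 2)))) := by
  intro d m v1 v2 v3
  simp only [d, m, v1, v2, v3]
  linear_combination (9 * s ^ 13 * t - 32 * s ^ 12 * t + 9 * s ^ 12 + 9 * s ^ 11 * t ^ 3 + 41 * s ^ 11 * t - 32 * s ^ 11 - 28 * s ^ 10 * t ^ 3 + 9 * s ^ 10 * t ^ 2 + 12 * s ^ 10 * t + 41 * s ^ 10 + 3 * s ^ 9 * t ^ 5 + 27 * s ^ 9 * t ^ 3 - 28 * s ^ 9 * t ^ 2 - 106 * s ^ 9 * t + 12 * s ^ 9 - 8 * s ^ 8 * t ^ 5 + 3 * s ^ 8 * t ^ 4 + 14 * s ^ 8 * t ^ 3 + 27 * s ^ 8 * t ^ 2 + 126 * s ^ 8 * t - 106 * s ^ 8 + 4 * s ^ 7 * t ^ 5 - 8 * s ^ 7 * t ^ 4 - 63 * s ^ 7 * t ^ 3 + 14 * s ^ 7 * t ^ 2 - 76 * s ^ 7 * t + 126 * s ^ 7 + 8 * s ^ 6 * t ^ 5 + 4 * s ^ 6 * t ^ 4 + 62 * s ^ 6 * t ^ 3 - 63 * s ^ 6 * t ^ 2 + 68 * s ^ 6 * t - 76 * s ^ 6 - 14 * s ^ 5 * t ^ 5 + 8 * s ^ 5 * t ^ 4 - 30 * s ^ 5 * t ^ 3 + 62 * s ^ 5 * t ^ 2 - 68 * s ^ 5 * t + 68 * s ^ 5 + 8 * s ^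 4 * t ^ 5 - 14 * s ^ 4 * t ^ 4 + 30 * s ^ 4 * t ^ 3 - 30 * s ^ 4 * t ^ 2 + 28 * s ^ 4 * t - 68 * s ^ 4 + 4 * s ^ 3 * t ^ 5 + 8 * s ^ 3 * t ^ 4 - 29 * s ^ 3 * t ^ 3 + 30 * s ^ 3 * t ^ 2 - 23 * s ^ 3 * t + 28 * s ^ 3 - 8 * s ^ 2 * t ^ 5 + 4 * s ^ 2 * t ^ 4 - 2 * s ^ 2 * t ^ 3 - 29 * s ^ 2 * t ^ 2 + 60 * s ^ 2 * t - 23 * s ^ 2 + 3 * s * t ^ 5 - 8 * s * t ^ 4 + 19 * s * t ^ 3 - 2 * s * t ^ 2 - 54 * s * t + 60 * s + 3 * t ^ 4 - 12 * t ^ 3 + 19 * t ^ 2 + 6 * t - 54) * hst + (s ^ 16 - 4 * s ^ 15 + 6 * s ^ 14 + 2 * s ^ 13 - 18 * s ^ 12 + 20 * s ^ 11 - 8 * s ^ 10 + 12 * s ^ 9 - 31 * s ^ 8 + 34 * s ^ 7 - 28 * s ^ 6 + 34 * s ^ 5 - 31 * s ^ 4 + 12 * s ^ 3 - 8 * s ^ 2 + 20 * s + t ^ 4 - 4 * t ^ 3 + 6 * t ^ 2 + 2 * t - 18) * h3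

theorem ma_a (s t : F) (h3 : (3 : F) = 0) :
    MA (-((s ^ 2 + t ^ 2) * (s - 1) ^ 6)) ((s - 1) ^ 3) 1 (-(s - 1) ^ 3) =
      (s - 1) ^ 6 • A0 (s ^ 2 + t ^ 2) ((s - 1) ^ 3) := by
  ext i j
  fin_cases i <;> fin_cases j <;>
    simp only [A0, MA, Matrix.smul_apply, smul_eq_mul,
      Matrix.of_apply, Matrix.cons_val', Matrix.cons_val_zero, Matrix.cons_val_one,
      Matrix.cons_val_two, Matrix.empty_val', Matrix.cons_val_fin_one, Matrix.head_cons,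
      Matrix.tail_cons, Matrix.head_fin_const, Fin.zero_eta, Fin.mk_one, Fin.reduceFinMk]
  · linear_combination ((s - 1) ^ 6) * h3
  · linear_combination ((s ^ 2 + t ^ 2) * (s - 1) ^ 9) * h3
  · ring
  · linear_combination ((s ^ 2 + t ^ 2) * (s - 1) ^ 9) * h3
  · linear_combination (-(s ^ 2 + t ^ 2) * (s - 1) ^ 12) * h3
  · linear_combination (-(s ^ 2 + t ^ 2) * (s - 1) ^ 9) * h3
  · ring
  · linear_combination (-(s ^ 2 + t ^ 2) * (s - 1) ^ 9) * h3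
  · linear_combination ((s - 1) ^ 6) * h3

theorem ma_d (s t : F) (hst : s * t = 1) (h3 : (3 : F) = 0) :
    s ^ 2 • MA ((s ^ 2 + t ^ 2) * (s + 1) ^ 6) (s * (s + 1) ^ 3) (-1) ((s + 1) ^ 3 * t) =
      (-(s + 1) ^ 6) • D0 (s ^ 2 + t ^ 2) ((s + 1) ^ 3) s := by
  ext i j
  fin_cases i <;> fin_cases j <;>
    simp only [D0, MA, Matrix.smul_apply, smul_eq_mul,
      Matrix.of_apply, Matrix.cons_val', Matrix.cons_val_zero, Matrix.cons_val_one,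
      Matrix.cons_val_two, Matrix.empty_val', Matrix.cons_val_fin_one, Matrix.head_cons,
      Matrix.tail_cons, Matrix.head_fin_const, Fin.zero_eta, Fin.mk_one, Fin.reduceFinMk]
  · linear_combination (2 * (s + 1) ^ 6 * (s * t + 1)) * hst + ((s + 1) ^ 6) * h3
  · linear_combination (-2 * (s ^ 2 + t ^ 2) * (s + 1) ^ 9 * s) * hst - ((s ^ 2 + t ^ 2) * (s + 1) ^ 9 * s) * h3
  · ring
  · linear_combination (-2 * (s ^ 2 + t ^ 2) * (s + 1) ^ 9 * s) * hst - ((s ^ 2 + t ^ 2) * (s + 1) ^ 9 * s) * h3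
  · linear_combination (-2 * (s ^ 2 + t ^ 2) * (s + 1) ^ 12 * s ^ 2) * hst - ((s ^ 2 + t ^ 2) * (s + 1) ^ 12 * s ^ 2) * h3
  · linear_combination (-(s ^ 2 + t ^ 2) * (s + 1) ^ 9 * s ^ 3) * h3
  · ring
  · linear_combination (-(s ^ 2 + t ^ 2) * (s + 1) ^ 9 * s ^ 3) * h3
  · linear_combination ((s + 1) ^ 6 * s ^ 4) * h3

end FG

end Pool.SCG
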